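import Pool.Agent.W798.SP.Basic

/-!
# Sum-product: the basic law
-/

set_option autoImplicit false
set_option linter.unusedSectionVars false

open Finset
open scoped Classical Pointwise

namespace Pool.Agent.W290.SPX

open Pool.Agent.W904.AK Pool.Agent.W798.SP

section gen

variable {Ω α : Type} [Fintype Ω] {p : Ω → ℝ}

lemma H_ge (hp : IsLaw p) (f : Ω → α) (B : ℝ) (h : ∀ x, p x ≠ 0 → im p f (f x) ≤ B) :
    -Real.log B ≤ H p f := by
  have h1 : -Real.log B = ∑ x, p x * -Real.log B := by
    rw [← Finset.sum_mul, hp.total, one_mul]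
  rw [h1]
  unfold H
  refine Finset.sum_le_sum fun x _ => ?_
  by_cases hx : p x = 0
  · rw [hx, zero_mul, zero_mul]
  · refine mul_le_mul_of_nonneg_left ?_ (hp.nonneg x)
    exact neg_le_neg (Real.log_le_log (im_pos hp f hx) (h x hx))

lemma sum_ratio (hp : IsLaw p) (f : Ω → α) (F : Finset α) (h : ∀ x, p x ≠ 0 → f x ∈ F) :
    ∑ x, p x / im p f (f x) ≤ (F.card : ℝ) := by
  have e1 : ∀ x, p x / im p f (f x) = ∑ a ∈ F, (if f x = a then p x else 0) / im p f a := by
    intro x
    by_cases hx : p x = 0
    · rw [hx, zero_div]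
      symm
      refine Finset.sum_eq_zero fun a _ => ?_
      rw [ite_self, zero_div]
    · rw [Finset.sum_eq_single (f x)]
      · rw [if_pos rfl]
      · intro a _ ha
        rw [if_neg (Ne.symm ha), zero_div]
      · intro ha
        exact absurd (h x hx) ha
  rw [Finset.sum_congr rfl fun x _ => e1 x, Finset.sum_comm]
  calc ∑ a ∈ F, ∑ x, (if f x = a then p x else 0) / im p f a ≤ ∑ a ∈ F, (1 : ℝ) := by
        refine Finset.sum_le_sum fun a _ => ?_
        rw [← Finset.sum_div]
        have e2 : (∑ x, if f x = a then p x else 0) = im p f a := rfl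
        rw [e2]
        exact div_self_le_one _
    _ = (F.card : ℝ) := by rw [Finset.sum_const, nsmul_eq_mul, mul_one]

/-- A variable with few values has small entropy. -/
lemma H_le (hp : IsLaw p) (f : Ω → α) (F : Finset α) (h : ∀ x, p x ≠ 0 → f x ∈ F) :
    H p f ≤ Real.log F.card := by
  obtain ⟨x0, hx0⟩ : ∃ x, p x ≠ 0 := by
    by_contra hc
    push Not at hc
    have h1 := hp.total
    rw [Finset.sum_eq_zero fun x _ => hc x] at h1
    exact one_ne_zero h1.symm
  have hN : (0 : ℝ) < F.card := by
    have : 0 < F.card := Finset.card_pos.2 ⟨f x0, h x0 hx0⟩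
    exact_mod_cast this
  have key : ∀ x, p x * -Real.log (im p f (f x)) ≤
      p x / im p f (f x) * (1 / F.card) + p x * (Real.log F.card - 1) := by
    intro x
    by_cases hx : p x = 0
    · rw [hx]; simp
    · have h1 : 0 < im p f (f x) := im_pos hp f hx
      have h2 := Real.log_le_sub_one_of_pos (x := 1 / (F.card * im p f (f x))) (by positivity)
      rw [one_div, Real.log_inv, Real.log_mul hN.ne' h1.ne'] at h2
      have h3 : -Real.log (im p f (f x)) ≤
          ((F.card : ℝ) * im p f (f x))⁻¹ + (Real.log F.card - 1) := by linarith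
      have h4 := mul_le_mul_of_nonneg_left h3 (hp.nonneg x)
      refine h4.trans (le_of_eq ?_)
      rw [mul_add]
      congr 1
      field_simp
  calc H p f ≤ ∑ x, (p x / im p f (f x) * (1 / F.card) + p x * (Real.log F.card - 1)) :=
        Finset.sum_le_sum fun x _ => key x
    _ = (∑ x, p x / im p f (f x)) * (1 / F.card) + (Real.log F.card - 1) := by
        rw [Finset.sum_add_distrib, ← Finset.sum_mul, ← Finset.sum_mul, hp.total, one_mul]
    _ ≤ F.card * (1 / F.card) + (Real.log F.card - 1) := by
        have := mul_le_mul_of_nonneg_right (sum_ratio hp f F h)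
          (by positivity : (0 : ℝ) ≤ 1 / F.card)
        linarith
    _ = Real.log F.card := by
        rw [mul_one_div_cancel hN.ne']
        ring

end gen

lemma sum_sub {β : Type} (W : Finset β) (P : β → Prop) [DecidablePred P] (c : ℝ) :
    ∑ x : {w // w ∈ W}, (if P x.1 then c else 0) = ((W.filter P).card : ℝ) * c := by
  rw [Finset.sum_coe_sort W (fun w => if P w then c else 0), ← Finset.sum_filter,
    Finset.sum_const, nsmul_eq_mul]

theorem tCL (h : S_C0) : S_CL := by
  intro A S T M hA hT hM hMS hS hAA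
  obtain ⟨W, hW, hcard, himg, hf0, hf1⟩ := h A S T M hA hT hM hMS hS hAA
  have hSpos : 0 < S.card := by omega
  have hWpos : 0 < W.card := by
    have h1 : 0 < M * S.card * T ^ 2 := by positivity
    omega
  have hSr : (0 : ℝ) < S.card := by exact_mod_cast hSpos
  have hTr : (0 : ℝ) < T := by exact_mod_cast (show 0 < T by omega)
  have hMr : (0 : ℝ) < M := by exact_mod_cast (show 0 < M by omega)
  have hWr : (0 : ℝ) < W.card := by exact_mod_cast hWpos
  have hcr : (M : ℝ) * S.card * T ^ 2 ≤ 16 * W.card := by exact_mod_cast hcard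
  haveI : Nonempty {w // w ∈ W} := by
    obtain ⟨w, hw⟩ := Finset.card_pos.1 hWpos
    exact ⟨⟨w, hw⟩⟩
  have hlaw := unif_law {w // w ∈ W}
  have hp : ∀ x : {w // w ∈ W}, unif {w // w ∈ W} x = 1 / (W.card : ℝ) := by
    intro x
    unfold unif
    rw [Fintype.card_coe]
  -- the first slope
  have hl : ∀ j : Fin 4, (∀ a, (W.filter (fun w => w.1 j = a)).card ≤ 4 * T ^ 2 * M) →
      Real.log (S.card / 64) ≤ H (unif {w // w ∈ W}) (fun ω : {w // w ∈ W} => ω.1.1 j) := by
    intro j hj
    have h1 : Real.log (S.card / 64) = -Real.log (64 / S.card) := by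
      rw [← Real.log_inv, inv_div]
    rw [h1]
    apply H_ge hlaw
    intro x _
    have e1 : im (unif {w // w ∈ W}) (fun ω : {w // w ∈ W} => ω.1.1 j) (x.1.1 j) =
        ((W.filter (fun w => w.1 j = x.1.1 j)).card : ℝ) * (1 / W.card) := by
      rw [← sum_sub W (fun w => w.1 j = x.1.1 j)]
      unfold im
      refine Finset.sum_congr rfl fun y _ => ?_
      rw [hp y]
    rw [e1]
    have h2 : ((W.filter (fun w => w.1 j = x.1.1 j)).card : ℝ) ≤ 4 * T ^ 2 * M := by
      exact_mod_cast hj (x.1.1 j)
    rw [mul_one_div, div_le_div_iff₀ hWr hSr]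
    nlinarith
  refine ⟨{w // w ∈ W}, inferInstance, unif {w // w ∈ W}, fun i ω => ω.1.1 i,
    fun i ω => ω.1.2 i, ?_, hl 0 hf0, hl 1 hf1, ?_⟩
  · refine ⟨hlaw, ?_, ?_, ?_, ?_, ?_⟩
    · intro ω _ i
      exact (hS _ ((hW ω.1 ω.2).1 i)).1
    · intro ω _ i
      exact (hW ω.1 ω.2).2.1 i
    · intro ω _ i
      exact (hW ω.1 ω.2).2.2.1 i
    · intro ω _
      exact (hW ω.1 ω.2).2.2.2
    · intro ω _ i
      exact (hS _ ((hW ω.1 ω.2).1 i.castSucc)).2.2.le
  · have h1 : H (unif {w // w ∈ W}) (zz (fun (i : Fin 4) (ω : {w // w ∈ W}) => ω.1.1 i)) ≤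
        Real.log ((W.image Prod.fst).card : ℕ) := by
      apply H_le hlaw
      intro x _
      exact Finset.mem_image.2 ⟨x.1, x.2, rfl⟩
    have himpos : (0 : ℝ) < ((W.image Prod.fst).card : ℕ) := by
      have : 0 < (W.image Prod.fst).card :=
        Finset.card_pos.2 ((Finset.card_pos.1 hWpos).image _)
      exact_mod_cast this
    have h2 : Real.log ((W.image Prod.fst).card : ℕ) ≤ Real.log (S.card * (M : ℝ) ^ 3) := by
      apply Real.log_le_log himpos
      exact_mod_cast himg
    have h3 : -Real.log (1 / (W.card : ℝ)) ≤ H (unif {w // w ∈ W})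
        (fun ω => (zz (fun (i : Fin 4) (ω : {w // w ∈ W}) => ω.1.1 i) ω,
          zz (fun (i : Fin 3) (ω : {w // w ∈ W}) => ω.1.2 i) ω)) := by
      apply H_ge hlaw
      intro x _
      unfold im
      rw [Finset.sum_eq_single x]
      · rw [if_pos rfl, hp x]
      · intro y _ hy
        rw [if_neg]
        intro he
        apply hy
        have e1 := congrArg Prod.fst he
        have e2 := congrArg Prod.snd he
        apply Subtype.ext
        exact Prod.ext e1 e2
      · intro hx
        exact absurd (Finset.mem_univ x) hx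
    rw [one_div, Real.log_inv, neg_neg] at h3
    have h4 : Real.log ((M : ℝ) * S.card * T ^ 2 / 16) ≤ Real.log W.card := by
      apply Real.log_le_log (by positivity)
      rw [div_le_iff₀ (by norm_num)]
      linarith
    have h5 : Real.log ((T : ℝ) ^ 2 / (16 * (M : ℝ) ^ 2)) =
        Real.log ((M : ℝ) * S.card * T ^ 2 / 16) - Real.log (S.card * (M : ℝ) ^ 3) := by
      rw [← Real.log_div (by positivity) (by positivity)]
      congr 1
      field_simp
    unfold CH
    rw [h5]
    linarith

end Pool.Agent.W290.SPX
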